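import Pool.Agent.L7h13.AF.Big

set_option autoImplicit false

/-!
# MP_91b7ff_nt: the moments of zeta as area integrals, all real exponents

Let `k > 0` be real. The functional equation gives the exact flux of `|ζ|^k` through the critical line, so that
Green's formula and the Hardy-Stein formula turn the `k`-th moment on the critical line into integrals of
`|ζ|^(k-2) |ζ'|²` over the half plane to the right of it. Consequences: in this measure the mean distance from the
critical line is `(2/k + o(1)) / log T`, and the asymptotic formula for the `k`-th moment is equivalent to asymptotic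
formulas for the area integrals.
-/

open MeasureTheory Set Filter Topology Complex

namespace Pool.Agent.Results.MP_91b7ff_nt.AreaForm

/-- the factor of the functional equation `ζ(1-s) = X(s) ζ(s)` -/
noncomputable def X (s : ℂ) : ℂ := 2 * (2 * (Real.pi : ℂ)) ^ (-s) * Gamma s * Complex.cos (Real.pi * s / 2)

/-- `X'/X` on the critical line; it is `log (t / 2π) + O(1/t)` -/
noncomputable def lam (t : ℝ) : ℝ := (logDeriv X (1 / 2 + t * I)).re

/-- the modulus of zeta on the critical line -/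
noncomputable def z (t : ℝ) : ℝ := ‖riemannZeta (1 / 2 + t * I)‖

/-- the density `|ζ|^(k-2) |ζ'|²` at the point `p.1 + i p.2` -/
noncomputable def ar (k : ℝ) (p : ℝ × ℝ) : ℝ :=
  ‖riemannZeta (p.1 + p.2 * I)‖ ^ (k - 2) * ‖deriv riemannZeta (p.1 + p.2 * I)‖ ^ 2

/-- `|ζ|^k - 1` at the point `p.1 + i p.2` -/
noncomputable def zk (k : ℝ) (p : ℝ × ℝ) : ℝ := ‖riemannZeta (p.1 + p.2 * I)‖ ^ k - 1

/-- the half plane to the right of the critical line -/
def H : Set (ℝ × ℝ) := {p | 1 / 2 < p.1}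

/-- the part with heights between `2` and `T` -/
def HT (T : ℝ) : Set (ℝ × ℝ) := {p | 1 / 2 < p.1 ∧ 2 ≤ p.2 ∧ p.2 ≤ T}

/-- the `k`-th moment -/
noncomputable def M (k T : ℝ) : ℝ := ∫ t in (0 : ℝ)..T, z t ^ k

lemma ar_eq (k : ℝ) (p : ℝ × ℝ) : ar k p = Pool.Agent.L7h13.AF.Fk riemannZeta k (Pool.Agent.L7h13.AF.pt p.1 p.2) := rfl

lemma z_eq (k t : ℝ) : z t ^ k = Pool.Agent.L7h13.AF.zl k t := by
  unfold z Pool.Agent.L7h13.AF.zl Pool.Agent.L7h13.AF.pt
  push_cast
  rfl

lemma lam_eq (t : ℝ) : lam t = Pool.Agent.W188.QS.lam t := rfl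

lemma HT_int {F : ℝ × ℝ → ℝ} (T : ℝ) : ∫ p in HT T, F p = ∫ p in Pool.Agent.L7h13.AF.SI 2 T, F p := by
  refine setIntegral_congr_set ?_
  refine (ae_eq_set.2 ⟨?_, ?_⟩)
  · have : HT T \ Pool.Agent.L7h13.AF.SI 2 T = ∅ := by
      rw [sdiff_eq_empty]
      rintro p ⟨h1, h2, h3⟩
      exact ⟨h1.le, h2, h3⟩
    rw [this]; simp
  · refine measure_mono_null ?_ Pool.Agent.L7h13.AF.null_line
    rintro p ⟨h1, h2⟩
    by_contra h3
    refine h2 ⟨?_, h1.2.1, h1.2.2⟩
    exact lt_of_le_of_ne h1.1 (Ne.symm h3)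

open Pool.Agent.L7h13.AF in
theorem result (k : ℝ) (hk : 0 < k) :
    (∀ t : ℝ, 50 ≤ t → |lam t - Real.log (t / (2 * Real.pi))| ≤ 14 / t) ∧
    -- the exact identities, for all `C²` weights with compact support in `t > 1`
    (∀ w : ℝ → ℝ, ContDiff ℝ 2 w → HasCompactSupport w → tsupport w ⊆ Ioi 1 →
      IntegrableOn (fun p => w p.2 * ar k p) H ∧ IntegrableOn (fun p => (p.1 - 1 / 2) * w p.2 * ar k p) H ∧
      IntegrableOn (fun p => deriv (deriv w) p.2 * zk k p) H ∧
      IntegrableOn (fun p => (p.1 - 1 / 2) * deriv (deriv w) p.2 * zk k p) H ∧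
      ∫ t, w t * lam t * z t ^ k =
        2 * k * (∫ p in H, w p.2 * ar k p) - 2 / k * ∫ p in H, deriv (deriv w) p.2 * zk k p ∧
      ∫ t, w t * (z t ^ k - 1) =
        k ^ 2 * (∫ p in H, (p.1 - 1 / 2) * w p.2 * ar k p) - ∫ p in H, (p.1 - 1 / 2) * deriv (deriv w) p.2 * zk k p) ∧
    -- the mean distance from the critical line, and the mass
    (∀ φ : ℝ → ℝ, ContDiff ℝ 2 φ → HasCompactSupport φ → tsupport φ ⊆ Ioi 0 → (∀ x, 0 ≤ φ x) → (∀ x, φ x ≤ 1) →
      (∃ x, φ x ≠ 0) → ∀ m : ℕ, 10 * k + 2 ≤ m →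
      Tendsto (fun T : ℝ => Real.log T * ((∫ p in H, (p.1 - 1 / 2) * φ (p.2 / T) ^ m * ar k p) /
        ∫ p in H, φ (p.2 / T) ^ m * ar k p)) atTop (𝓝 (2 / k)) ∧
      Tendsto (fun T : ℝ => (∫ p in H, φ (p.2 / T) ^ m * ar k p) / (Real.log T * ∫ t, φ (t / T) ^ m * z t ^ k)) atTop
        (𝓝 (1 / (2 * k)))) ∧
    -- equivalent forms of the asymptotic formula for the moment
    (∀ A c : ℝ, 0 < A →
      (Tendsto (fun T : ℝ => M k T / (T * Real.log T ^ A)) atTop (𝓝 c) ↔
        Tendsto (fun T : ℝ => (∫ p in HT T, ar k p) / (T * Real.log T ^ (A + 1))) atTop (𝓝 (c / (2 * k)))) ∧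
      (Tendsto (fun T : ℝ => M k T / (T * Real.log T ^ A)) atTop (𝓝 c) ↔
        Tendsto (fun T : ℝ => (∫ p in HT T, (p.1 - 1 / 2) * ar k p) / (T * Real.log T ^ A)) atTop (𝓝 (c / k ^ 2)))) := by
  refine ⟨fun t ht => (Pool.Agent.W338.QS.qs_line.1 t ht).2.1, fun w hw hc hs => ?_,
    fun φ hφ hc hs h0 h1 hne m hm => ?_, fun A c hA => ?_⟩
  · -- the identities
    set w1 := deriv w with hw1
    set w2 := deriv w1 with hw2
    have hC1 : ContDiff ℝ 1 w1 := by
      have h : ContDiff ℝ (1 + 1) w := by norm_num; exact hw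
      exact (contDiff_succ_iff_deriv.1 h).2.2
    have d1 : ∀ t, HasDerivAt w (w1 t) t := fun t => (hw.differentiable (by norm_num) t).hasDerivAt
    have d2 : ∀ t, HasDerivAt w1 (w2 t) t := fun t => (hC1.differentiable (by norm_num) t).hasDerivAt
    have c2 : Continuous w2 := hC1.continuous_deriv (by norm_num)
    -- the support
    obtain ⟨a, b, ha, hab, hsab⟩ : ∃ a b : ℝ, 1 < a ∧ a ≤ b ∧ ∀ t, t ∉ Icc a b → w t = 0 := by
      rcases (tsupport w).eq_empty_or_nonempty with he | hne
      · exact ⟨2, 3, by norm_num, by norm_num, fun t _ => image_eq_zero_of_notMem_tsupport (by rw [he]; exact notMem_empty _)⟩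
      · have hK : IsCompact (tsupport w) := hc
        have h1 := hK.isLeast_sInf hne
        have h2 := hK.isGreatest_sSup hne
        refine ⟨sInf (tsupport w), sSup (tsupport w), hs h1.1, h1.2 h2.1, fun t ht => ?_⟩
        apply image_eq_zero_of_notMem_tsupport
        intro h
        exact ht ⟨h1.2 h, h2.2 h⟩
    have hout : ∀ t, t ∉ Icc a b → w2 t = 0 := by
      have h1 : ∀ t, t ∉ Icc a b → w1 t = 0 := by
        intro t ht
        have : w =ᶠ[𝓝 t] fun _ => (0:ℝ) := by
          filter_upwards [isClosed_Icc.isOpen_compl.mem_nhds ht] with u hu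
          exact hsab u hu
        exact (d1 t).unique ((hasDerivAt_const t (0:ℝ)).congr_of_eventuallyEq this)
      intro t ht
      have : w1 =ᶠ[𝓝 t] fun _ => (0:ℝ) := by
        filter_upwards [isClosed_Icc.isOpen_compl.mem_nhds ht] with u hu
        exact h1 u hu
      exact (d2 t).unique ((hasDerivAt_const t (0:ℝ)).congr_of_eventuallyEq this)
    have hbig : ∀ t, t ∉ Icc ((1 + a) / 2) (b + 1) → t ∉ Icc a b := fun t ht h => ht ⟨by linarith [h.1], by linarith [h.2]⟩
    obtain ⟨I1, I2, I3⟩ := idt_signed (p := 1) (q := 0) hk d1 d2 c2 ha hab hsab zero_le_one le_rfl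
    obtain ⟨J1, J2, J3⟩ := idt_signed (p := 0) (q := 1) hk d1 d2 c2 ha hab hsab le_rfl zero_le_one
    have A1 := SI_HP (fun z hz => by rw [hsab _ (hbig _ hz)]; ring) I1
    have A2 := SI_HP (fun z hz => by rw [hout _ (hbig _ hz)]; ring) I2
    have B1 := SI_HP (fun z hz => by rw [hsab _ (hbig _ hz)]; ring) J1
    have B2 := SI_HP (fun z hz => by rw [hout _ (hbig _ hz)]; ring) J2
    rw [← A1.2, ← A2.2] at I3
    rw [← B1.2, ← B2.2] at J3
    have eA1 : (fun z : ℝ × ℝ => (1 + 0 * (z.1 - 1 / 2)) * w z.2 * Fk riemannZeta k (pt z.1 z.2)) = fun p => w p.2 * ar k p := by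
      funext z
      rw [ar_eq]; ring
    have eA2 : (fun z : ℝ × ℝ => (1 + 0 * (z.1 - 1 / 2)) * w2 z.2 * (‖riemannZeta (pt z.1 z.2)‖ ^ k - 1)) = fun p => w2 p.2 * zk k p := by
      funext z
      show _ = w2 z.2 * (‖riemannZeta (pt z.1 z.2)‖ ^ k - 1)
      ring
    have eB1 : (fun z : ℝ × ℝ => (0 + 1 * (z.1 - 1 / 2)) * w z.2 * Fk riemannZeta k (pt z.1 z.2)) = fun p => (p.1 - 1 / 2) * w p.2 * ar k p := by
      funext z
      rw [ar_eq]; ring
    have eB2 : (fun z : ℝ × ℝ => (0 + 1 * (z.1 - 1 / 2)) * w2 z.2 * (‖riemannZeta (pt z.1 z.2)‖ ^ k - 1)) = fun p => (p.1 - 1 / 2) * w2 p.2 * zk k p := by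
      funext z
      show _ = (z.1 - 1 / 2) * w2 z.2 * (‖riemannZeta (pt z.1 z.2)‖ ^ k - 1)
      ring
    rw [eA1] at A1
    rw [eA2] at A2
    rw [eB1] at B1
    rw [eB2] at B2
    rw [eA1, eA2] at I3
    rw [eB1, eB2] at J3
    refine ⟨A1.1, B1.1, A2.1, B2.1, ?_, ?_⟩
    · have e : L0 w k ((1 + a) / 2) (b + 1) 1 0 = k / 2 * ∫ t, w t * lam t * z t ^ k := by
        unfold L0
        rw [intervalIntegral.integral_eq_integral_of_support_subset]
        · rw [← integral_const_mul]
          refine integral_congr_ae (Eventually.of_forall fun y => ?_)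
          show w y * (1 * (k / 2 * lam y * zl k y) + 0 * (zl k y - 1)) = k / 2 * (w y * lam y * z y ^ k)
          rw [z_eq]; ring
        · intro t ht
          by_contra h
          refine ht ?_
          have : w t = 0 := hsab t fun h' => h ⟨by linarith [h'.1], by linarith [h'.2]⟩
          simp [this]
      rw [e] at I3
      have hk2 : k ≠ 0 := hk.ne'
      have e2 : ∫ t, w t * lam t * z t ^ k = 2 / k * (k / 2 * ∫ t, w t * lam t * z t ^ k) := by field_simp
      have e3 : k / 2 * (∫ t, w t * lam t * z t ^ k) = k ^ 2 * (∫ p in H, w p.2 * ar k p) - ∫ p in H, w2 p.2 * zk k p := by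
        have : (HP : Set (ℝ × ℝ)) = H := rfl
        rw [this] at I3
        linarith
      rw [e2, e3]
      field_simp
    · have e : L0 w k ((1 + a) / 2) (b + 1) 0 1 = ∫ t, w t * (z t ^ k - 1) := by
        unfold L0
        rw [intervalIntegral.integral_eq_integral_of_support_subset]
        · refine integral_congr_ae (Eventually.of_forall fun y => ?_)
          show w y * (0 * (k / 2 * lam y * zl k y) + 1 * (zl k y - 1)) = w y * (z y ^ k - 1)
          rw [z_eq]; ring
        · intro t ht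
          by_contra h
          refine ht ?_
          have : w t = 0 := hsab t fun h' => h ⟨by linarith [h'.1], by linarith [h'.2]⟩
          simp [this]
      rw [e] at J3
      have : (HP : Set (ℝ × ℝ)) = H := rfl
      rw [this] at J3
      linarith
  · -- smooth windows
    set φ1 := deriv φ with hφ1
    set φ2 := deriv φ1 with hφ2
    have hC1 : ContDiff ℝ 1 φ1 := by
      have h : ContDiff ℝ (1 + 1) φ := by norm_num; exact hφ
      exact (contDiff_succ_iff_deriv.1 h).2.2
    have d1 : ∀ t, HasDerivAt φ (φ1 t) t := fun t => (hφ.differentiable (by norm_num) t).hasDerivAt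
    have d2 : ∀ t, HasDerivAt φ1 (φ2 t) t := fun t => (hC1.differentiable (by norm_num) t).hasDerivAt
    have c2 : Continuous φ2 := hC1.continuous_deriv (by norm_num)
    obtain ⟨α, β, hα, hαβ, hsab⟩ : ∃ α β : ℝ, 0 < α ∧ α < β ∧ ∀ t, t ∉ Ioo α β → φ t = 0 := by
      have hK : IsCompact (tsupport φ) := hc
      have hne' : (tsupport φ).Nonempty := by
        obtain ⟨x, hx⟩ := hne
        exact ⟨x, subset_tsupport _ hx⟩
      have h1 := hK.isLeast_sInf hne'
      have h2 := hK.isGreatest_sSup hne'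
      have h3 : 0 < sInf (tsupport φ) := hs h1.1
      have h4 := h1.2 h2.1
      refine ⟨sInf (tsupport φ) / 2, sSup (tsupport φ) + 1, by linarith, by linarith, fun t ht => ?_⟩
      apply image_eq_zero_of_notMem_tsupport
      intro h
      exact ht ⟨by have := h1.2 h; linarith, by have := h2.2 h; linarith⟩
    have hB := big hk hφ.continuous h0 hα hαβ hsab hne m
    obtain ⟨T1, T2⟩ := win_lim hk d1 d2 c2 h0 h1 hα hαβ (hsab _ (by simp)) (hsab _ (by simp)) hm hB
    set A : ℝ → ℝ := fun T => AA (fun t => φ (t / T) ^ m) k (1 / 2) (α * T) (β * T) with hA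
    have hm0 : m ≠ 0 := by
      rintro rfl
      simp at hm
      linarith
    have hz : ∀ T : ℝ, 0 < T → ∀ t : ℝ, t ∉ Icc (α * T) (β * T) → φ (t / T) ^ m = 0 := by
      intro T hT t ht
      rw [hsab, zero_pow hm0]
      rintro ⟨h1, h2⟩
      exact ht ⟨by rw [lt_div_iff₀ hT] at h1; exact h1.le, by rw [div_lt_iff₀ hT] at h2; exact h2.le⟩
    obtain ⟨K, hK, hg⟩ := phi_gw d1 d2 c2 h0 h1 hα hαβ (hsab _ (by simp)) (hsab _ (by simp)) (m := m) (by
      have : (2:ℝ) ≤ m := by linarith
      exact_mod_cast this)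
    -- conversion
    have hconv : ∀ᶠ T : ℝ in atTop,
        (∫ p in H, φ (p.2 / T) ^ m * ar k p = ∫ z in SI (α * T) (β * T), (1 + 0 * (z.1 - 1 / 2)) * φ (z.2 / T) ^ m * Fk riemannZeta k (pt z.1 z.2)) ∧
        (∫ p in H, (p.1 - 1 / 2) * φ (p.2 / T) ^ m * ar k p = ∫ z in SI (α * T) (β * T), (0 + 1 * (z.1 - 1 / 2)) * φ (z.2 / T) ^ m * Fk riemannZeta k (pt z.1 z.2)) ∧
        (∫ t, φ (t / T) ^ m * z t ^ k = A T) := by
      filter_upwards [eventually_ge_atTop (2 / α), eventually_ge_atTop 1] with T hT1 hT2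
      have hT0 : 0 < T := by linarith
      have hαT : 2 ≤ α * T := by rw [div_le_iff₀ hα] at hT1; linarith
      obtain ⟨w1, w2, hG⟩ := hg T hT1 hT2
      obtain ⟨I1, -, -⟩ := inf_id (p := 1) (q := 0) hk hG.wt hG.w0 (by linarith) hG.hab zero_le_one le_rfl
      obtain ⟨J1, -, -⟩ := inf_id (p := 0) (q := 1) hk hG.wt hG.w0 (by linarith) hG.hab le_rfl zero_le_one
      have A1 := SI_HP (fun z hz' => by rw [hz T hT0 _ hz']; ring) I1
      have B1 := SI_HP (fun z hz' => by rw [hz T hT0 _ hz']; ring) J1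
      refine ⟨?_, ?_, ?_⟩
      · rw [← A1.2]
        refine integral_congr_ae (Eventually.of_forall fun p => ?_)
        show φ (p.2 / T) ^ m * ar k p = _
        rw [ar_eq]; ring
      · rw [← B1.2]
        refine integral_congr_ae (Eventually.of_forall fun p => ?_)
        show (p.1 - 1 / 2) * φ (p.2 / T) ^ m * ar k p = _
        rw [ar_eq]; ring
      · have e : A T = ∫ t in (α * T)..(β * T), φ (t / T) ^ m * zl k t := rfl
        have hsup : Function.support (fun t => φ (t / T) ^ m * zl k t) ⊆ Ioc (α * T) (β * T) := by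
          intro t ht
          by_contra h
          refine ht ?_
          have : φ (t / T) ^ m = 0 := by
            rw [hsab, zero_pow hm0]
            rintro ⟨h1, h2⟩
            exact h ⟨by rw [lt_div_iff₀ hT0] at h1; exact h1, by rw [div_lt_iff₀ hT0] at h2; exact h2.le⟩
          simp [this]
        rw [e, intervalIntegral.integral_eq_integral_of_support_subset hsup]
        refine integral_congr_ae (Eventually.of_forall fun y => ?_)
        show φ (y / T) ^ m * z y ^ k = φ (y / T) ^ m * zl k y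
        rw [z_eq]
    have hA0 : ∀ᶠ T : ℝ in atTop, 0 < A T := by
      filter_upwards [hB.eventually_ge_atTop 1, eventually_gt_atTop 0] with T h2 hT
      by_contra hcon
      push Not at hcon
      have : T⁻¹ * A T ≤ 0 := mul_nonpos_of_nonneg_of_nonpos (by positivity) hcon
      linarith
    constructor
    · have h := T2.div T1 (by positivity)
      have e : 1 / k ^ 2 / (1 / (2 * k)) = 2 / k := by field_simp
      rw [e] at h
      refine h.congr' ?_
      filter_upwards [hconv, hA0, eventually_gt_atTop 1] with T ⟨q1, q2, q3⟩ hAT hT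
      simp only [Pi.div_apply]
      rw [q1, q2]
      have hlog : Real.log T ≠ 0 := (Real.log_pos hT).ne'
      have hAT' : A T ≠ 0 := hAT.ne'
      rw [div_div_div_eq]
      rw [mul_comm (∫ z in SI (α * T) (β * T), (0 + 1 * (z.1 - 1 / 2)) * φ (z.2 / T) ^ m * Fk riemannZeta k (pt z.1 z.2)),
        mul_assoc, mul_left_comm, mul_div_mul_left _ _ hAT', mul_div_assoc]
    · refine T1.congr' ?_
      filter_upwards [hconv] with T ⟨q1, q2, q3⟩
      rw [q1, q3]
  · -- equivalences
    have e0 : M k = MM k := by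
      funext T
      unfold M MM
      refine intervalIntegral.integral_congr fun t _ => z_eq k t
    have e1 : ∀ T, ∫ p in HT T, ar k p = ZZ k 1 0 T := by
      intro T
      rw [HT_int]
      refine integral_congr_ae (Eventually.of_forall fun p => ?_)
      show ar k p = _
      rw [ar_eq]; ring
    have e2 : ∀ T, ∫ p in HT T, (p.1 - 1 / 2) * ar k p = ZZ k 0 1 T := by
      intro T
      rw [HT_int]
      refine integral_congr_ae (Eventually.of_forall fun p => ?_)
      show (p.1 - 1 / 2) * ar k p = _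
      rw [ar_eq]; ring
    simp_rw [e0, e1, e2]
    exact ⟨iff_E hk hA, iff_V hk hA⟩

end Pool.Agent.Results.MP_91b7ff_nt.AreaForm
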