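import Pool.Agent.L7h13.NQ.Fin

set_option autoImplicit false

/-!
# Collisions of eighteen and of twenty fat points

Let `r` be eighteen or twenty. For every field `k` of characteristic zero, every `m` and all
`(c, a)` outside a hypersurface, the forms of degree `d` through the subscheme of the plane with
ideal `(y - (a₀ + a₁ x + ... + a_(r-1) x ^ (r-1)), (x - c) ^ r) ^ m` have the expected dimension in
every degree `d ≥ m √r + (√r - 3) / 2`, in every degree `d` which is two or three modulo four, and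
below `m √r + 1 / 2` (if `d` is one modulo four) and `m √r + 1 / 2 - 2 / (4 + √r)` (if four divides
`d`).
-/

namespace Pool.Agent.Results.MP_e6aa12_ag.EighteenAndTwenty

open Polynomial

universe u

/-- The forms of degree `d` in three variables whose dehomogenisation lies in the ideal
`(y - ∑ a_j x ^ j, (x - c) ^ r) ^ m` of `k[x][y]`. -/
noncomputable def forms {k : Type u} [Field k] {r : ℕ} (m : ℕ) (c : k) (a : Fin r → k) (d : ℕ) :
    Submodule k (MvPolynomial (Fin 3) k) :=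
  MvPolynomial.homogeneousSubmodule (Fin 3) k d ⊓
    (Submodule.restrictScalars k
      ((Ideal.span {X - C (∑ j : Fin r, C (a j) * X ^ (j : ℕ)), C ((X - C c) ^ r)} :
        Ideal k[X][X]) ^ m)).comap
      (MvPolynomial.aeval ![C X, X, 1] :
        MvPolynomial (Fin 3) k →ₐ[k] k[X][X]).toLinearMap

/-- Over every field of characteristic zero, for all `(c, a)` outside a hypersurface, the space of
forms has the expected dimension in all degrees `d` in the set `S`. -/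
def Expected (r m : ℕ) (S : Set ℕ) : Prop :=
  ∀ (k : Type u) [Field k] [CharZero k],
    ∃ F : MvPolynomial (Fin (r + 1)) k, F ≠ 0 ∧
      ∀ (c : k) (a : Fin r → k), MvPolynomial.eval (Fin.cons c a : Fin (r + 1) → k) F ≠ 0 →
        ∀ d ∈ S, Module.finrank k (forms m c a d) = Nat.choose (d + 2) 2 - r * Nat.choose (m + 1) 2

theorem Expected.mono {r m : ℕ} {S S' : Set ℕ} (h : Expected.{u} r m S') (hS : S ⊆ S') :
    Expected.{u} r m S := by
  intro k _ _
  obtain ⟨F, hF, hF'⟩ := h k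
  exact ⟨F, hF, fun c a hc d hd => hF' c a hc d (hS hd)⟩

theorem result (r : ℕ) (hr : r = 18 ∨ r = 20) :
    (∀ m : ℕ, Expected.{u} r m
      {d | Real.sqrt r * (2 * m + 1) ≤ 2 * d + 3 ∨ d % 4 = 2 ∨ d % 4 = 3 ∨
        (d % 4 = 1 ∧ (d : ℝ) < Real.sqrt r * m + 1 / 2) ∨
        (d : ℝ) < Real.sqrt r * m + 1 / 2 - 2 / (4 + Real.sqrt r)}) ∧
    (∀ m : ℕ, ∃ d₀ : ℕ, (4 ∣ d₀ ∨ 4 ∣ d₀ + 3) ∧ Expected.{u} r m {d | d ≠ d₀}) ∧
    ∀ ε : ℝ, 0 < ε → ∃ M₀ : ℕ, ∀ M : ℕ, M₀ ≤ M →
      (Set.ncard {m : ℕ | m < M ∧ ¬ Expected.{u} r m Set.univ} : ℝ) ≤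
        ((Real.sqrt r - 4) / 4 + 1 / (2 * (4 + Real.sqrt r)) + ε) * M := by
  classical
  have hr16 : 16 < r := by omega
  have hr25 : r < 25 := by omega
  obtain ⟨s, hs⟩ : ∃ s : ℝ, s = Real.sqrt r := ⟨_, rfl⟩
  have hs4 : 4 < s := by
    rw [hs, Real.lt_sqrt (by norm_num)]
    have : (16 : ℝ) < r := by exact_mod_cast hr16
    linarith
  have hs5 : s < 5 := by
    rw [hs, Real.sqrt_lt' (by norm_num)]
    have : (r : ℝ) < 25 := by exact_mod_cast hr25
    linarith
  have hs8 : 0 < 4 + s := by linarith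
  obtain ⟨g, hg⟩ : ∃ g : ℝ, g = 1 / (2 * (4 + s)) := ⟨_, rfl⟩
  have hg0 : 0 < g := by rw [hg]; positivity
  have hg1 : 4 * g = 2 / (4 + s) := by rw [hg]; field_simp; norm_num
  have hg2 : 16 * g < 1 := by
    rw [hg]
    rw [mul_one_div, div_lt_one (by positivity)]
    linarith
  have hirr : Irrational s := by
    rw [hs, irrational_sqrt_natCast_iff]
    rintro ⟨q, hq⟩
    have hq1 : q ≤ 4 := by
      by_contra hcon
      have : 5 * 5 ≤ q * q := Nat.mul_le_mul (by omega) (by omega)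
      omega
    have : q * q ≤ 4 * 4 := Nat.mul_le_mul hq1 hq1
    omega
  rw [← hs, ← hg, ← hg1]
  have h1 : ∀ m : ℕ, Expected.{u} r m
      {d | s * (2 * m + 1) ≤ 2 * d + 3 ∨ d % 4 = 2 ∨ d % 4 = 3 ∨
        (d % 4 = 1 ∧ (d : ℝ) < s * m + 1 / 2) ∨ (d : ℝ) < s * m + 1 / 2 - 4 * g} := by
    intro m k _ _
    obtain ⟨F, hF, hF'⟩ := Pool.Agent.L7h13.NQ.coll4 hr m k
    refine ⟨F, hF, fun c a hc d hd => hF' c a hc d ?_⟩
    rw [← hs]
    rcases hd with hd | hd | hd | hd | hd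
    · exact Or.inr (Or.inr (Or.inl hd))
    · exact Or.inl hd
    · exact Or.inr (Or.inl hd)
    · exact Or.inr (Or.inr (Or.inr (Or.inl ⟨hd.1, by linarith [hd.2]⟩)))
    · refine Or.inr (Or.inr (Or.inr (Or.inr ?_)))
      have h2 : 2 * (d : ℝ) - 1 - 2 * s * m < -(8 * g) := by linarith
      have h3 : (4 + s) * (8 * g) = 4 := by
        rw [show (8 : ℝ) * g = 2 * (4 * g) by ring, hg1]
        field_simp
        norm_num
      have h4 := mul_lt_mul_of_pos_left h2 hs8
      linarith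
  -- the open degrees
  have h2 : ∀ m : ℕ, ∀ d : ℕ, ¬ (s * (2 * m + 1) ≤ 2 * d + 3 ∨ d % 4 = 2 ∨ d % 4 = 3 ∨
      (d % 4 = 1 ∧ (d : ℝ) < s * m + 1 / 2) ∨ (d : ℝ) < s * m + 1 / 2 - 4 * g) →
      (4 ∣ d ∨ 4 ∣ d + 3) ∧ (d : ℝ) < s * m + (s - 3) / 2 ∧ s * m + 1 / 2 - 4 * g ≤ d ∧
        (d % 4 = 1 → s * m + 1 / 2 ≤ d) := by
    intro m d hcon
    push Not at hcon
    obtain ⟨c1, c2, c3, c4, c5⟩ := hcon
    exact ⟨by omega, by linarith, c5, c4⟩
  refine ⟨h1, fun m => ?_, fun ε hε => ?_⟩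
  · by_cases hex : ∃ d : ℕ, ¬ (s * (2 * m + 1) ≤ 2 * d + 3 ∨ d % 4 = 2 ∨ d % 4 = 3 ∨
      (d % 4 = 1 ∧ (d : ℝ) < s * m + 1 / 2) ∨ (d : ℝ) < s * m + 1 / 2 - 4 * g)
    · obtain ⟨d₀, hd₀⟩ := hex
      obtain ⟨c1, c2, c3, _⟩ := h2 m d₀ hd₀
      refine ⟨d₀, c1, (h1 m).mono fun d hd => ?_⟩
      by_contra hcon
      obtain ⟨c4, c5, c6, _⟩ := h2 m d hcon
      apply hd
      have e1 : (d : ℝ) < d₀ + 1 := by linarith
      have e2 : (d₀ : ℝ) < d + 1 := by linarith
      have e3 : d < d₀ + 1 := by exact_mod_cast e1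
      have e4 : d₀ < d + 1 := by exact_mod_cast e2
      omega
    · push Not at hex
      exact ⟨0, Or.inl ⟨0, rfl⟩, (h1 m).mono fun d _ => hex d⟩
  · have hirr4 : Irrational (s / 4) := by
      have := hirr.div_natCast (m := 4) (by norm_num)
      push_cast at this
      exact this
    -- four divides `d`
    obtain ⟨M1, hM1⟩ := Pool.Agent.TH885.NW.count_sharp hirr4 0 (-(1 / 2 - 4 * g) / 4)
      ((s - 3) / 8) (by linarith) (half_pos hε)
    -- `d` is one modulo four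
    obtain ⟨M2, hM2⟩ := Pool.Agent.TH885.NW.count_sharp hirr4 0 (1 / 8)
      ((s - 5) / 8) (by linarith) (half_pos hε)
    refine ⟨⌈max M1 M2⌉₊, fun M hM => ?_⟩
    have hMM : max M1 M2 ≤ M := (Nat.le_ceil _).trans (by exact_mod_cast hM)
    have hfin : {m : ℕ | m < M ∧ ¬ Expected.{u} r m Set.univ}.Finite :=
      (Set.finite_lt_nat M).subset fun m hm => hm.1
    have hfin1 : {m : ℕ | m < M ∧ ∃ D : ℤ, s / 4 * m + 0 - (-(1 / 2 - 4 * g) / 4) ≤ D ∧
        (D : ℝ) ≤ s / 4 * m + 0 + (s - 3) / 8}.Finite :=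
      (Set.finite_lt_nat M).subset fun m hm => hm.1
    have hfin2 : {m : ℕ | m < M ∧ ∃ D : ℤ, s / 4 * m + 0 - 1 / 8 ≤ D ∧
        (D : ℝ) ≤ s / 4 * m + 0 + (s - 5) / 8}.Finite :=
      (Set.finite_lt_nat M).subset fun m hm => hm.1
    have c1 := hM1 M ((le_max_left _ _).trans hMM) hfin1.toFinset
      (fun m hm => ((Set.Finite.mem_toFinset hfin1).1 hm).1)
      (fun m hm => ((Set.Finite.mem_toFinset hfin1).1 hm).2)
    have c2 := hM2 M ((le_max_right _ _).trans hMM) hfin2.toFinset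
      (fun m hm => ((Set.Finite.mem_toFinset hfin2).1 hm).1)
      (fun m hm => ((Set.Finite.mem_toFinset hfin2).1 hm).2)
    have hsub : hfin.toFinset ⊆ hfin1.toFinset ∪ hfin2.toFinset := by
      intro m hm
      obtain ⟨hmM, hbad⟩ := (Set.Finite.mem_toFinset hfin).1 hm
      rw [Finset.mem_union, Set.Finite.mem_toFinset, Set.Finite.mem_toFinset]
      by_contra hcon
      push Not at hcon
      obtain ⟨hc1, hc2⟩ := hcon
      apply hbad
      refine (h1 m).mono fun d _ => ?_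
      by_contra hd
      obtain ⟨e1, e2, e3, e4⟩ := h2 m d hd
      rcases e1 with ⟨D, hD⟩ | ⟨D, hD⟩
      · apply hc1
        refine ⟨hmM, D, ?_, ?_⟩
        · rw [hD] at e3; push_cast at e3 ⊢; linarith
        · rw [hD] at e2; push_cast at e2 ⊢; linarith
      · apply hc2
        have e5 := e4 (by omega)
        have hDR : (d : ℝ) + 3 = 4 * D := by exact_mod_cast hD
        refine ⟨hmM, (D : ℤ) - 1, ?_, ?_⟩
        · push_cast; linarith
        · push_cast; linarith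
    rw [Set.ncard_eq_toFinset_card _ hfin]
    have c3 := Finset.card_le_card hsub
    have c4 := c3.trans (Finset.card_union_le _ _)
    have c5 : (hfin.toFinset.card : ℝ) ≤ hfin1.toFinset.card + hfin2.toFinset.card := by
      exact_mod_cast c4
    refine (c5.trans (add_le_add c1 c2)).trans_eq ?_
    ring

end Pool.Agent.Results.MP_e6aa12_ag.EighteenAndTwenty
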